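import Mathlib

namespace Pool.Agent.Results.MP_1eaf4f_ag.ManyCubics

open MvPolynomial Module

/-- the apolarity pairing: the constant term of the differential operator `f` applied to `T` -/
noncomputable def pair {m : ℕ} (f T : MvPolynomial (Fin m) ℂ) : ℂ :=
  ∑ s ∈ T.support, coeff s f * coeff s T * ∏ i, ((s i).factorial : ℂ)

/-- the degree `d` part of the apolar ideal of `T` -/
noncomputable def ann {m : ℕ} (T : MvPolynomial (Fin m) ℂ) (d : ℕ) :
    Submodule ℂ (MvPolynomial (Fin m) ℂ) :=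
  homogeneousSubmodule (Fin m) ℂ d ⊓
  { carrier := {f | ∀ g, pair (f * g) T = 0}
    zero_mem' := by simp [pair]
    add_mem' := fun {a b} ha hb g => by
      simpa [pair, add_mul, Finset.sum_add_distrib] using congrArg₂ (· + ·) (ha g) (hb g)
    smul_mem' := fun c a ha g => by
      simpa [pair, Finset.mul_sum, mul_assoc] using congrArg (c * ·) (ha g) }

/-- exponent vectors -/
noncomputable def fs (v : Fin 9 → ℕ) : Fin 9 →₀ ℕ := Finsupp.equivFunOnFinite.symm v

theorem fs_apply (v : Fin 9 → ℕ) (i : Fin 9) : fs v i = v i := rfl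

/-- the six quadratic monomials in the first three variables -/
def q : Fin 6 → Fin 9 → ℕ :=
  ![![2, 0, 0, 0, 0, 0, 0, 0, 0], ![0, 2, 0, 0, 0, 0, 0, 0, 0], ![0, 0, 2, 0, 0, 0, 0, 0, 0],
    ![1, 1, 0, 0, 0, 0, 0, 0, 0], ![1, 0, 1, 0, 0, 0, 0, 0, 0], ![0, 1, 1, 0, 0, 0, 0, 0, 0]]

/-- the monomials of the cubic -/
def e (k : Fin 6) (i : Fin 9) : ℕ := q k i + if (i : ℕ) = k + 3 then 1 else 0

/-- the ten cubic monomials in the first three variables -/
def c : Fin 10 → Fin 9 → ℕ :=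
  ![![3, 0, 0, 0, 0, 0, 0, 0, 0], ![0, 3, 0, 0, 0, 0, 0, 0, 0], ![0, 0, 3, 0, 0, 0, 0, 0, 0],
    ![2, 1, 0, 0, 0, 0, 0, 0, 0], ![2, 0, 1, 0, 0, 0, 0, 0, 0], ![1, 2, 0, 0, 0, 0, 0, 0, 0],
    ![0, 2, 1, 0, 0, 0, 0, 0, 0], ![1, 0, 2, 0, 0, 0, 0, 0, 0], ![0, 1, 2, 0, 0, 0, 0, 0, 0],
    ![1, 1, 1, 0, 0, 0, 0, 0, 0]]

/-- the cubic -/
noncomputable def T : MvPolynomial (Fin 9) ℂ := ∑ k, monomial (fs (e k)) 1

theorem fs_inj : Function.Injective fs := Finsupp.equivFunOnFinite.symm.injective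

theorem pair_T (f : MvPolynomial (Fin 9) ℂ) :
    pair f T = ∑ k, coeff (fs (e k)) f * ∏ i, ((e k i).factorial : ℂ) := by
  classical
  have hinj : Function.Injective fun k => fs (e k) :=
    fs_inj.comp (show Function.Injective e by decide)
  have hc : ∀ s, coeff s T = ∑ k, if fs (e k) = s then 1 else 0 := by
    intro s; simp [T, coeff_sum, coeff_monomial]
  rw [pair, Finset.sum_subset (s₂ := Finset.univ.image fun k => fs (e k)),
    Finset.sum_image fun a _ b _ h => hinj h]
  · refine Finset.sum_congr rfl fun k _ => ?_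
    rw [hc, Finset.sum_eq_single k (fun b _ h => if_neg fun h' => h (hinj h')) (by simp)]
    simp [fs_apply]
  · intro s hs
    rw [MvPolynomial.mem_support_iff, hc] at hs
    obtain ⟨k, -, hk⟩ := Finset.exists_ne_zero_of_sum_ne_zero hs
    exact Finset.mem_image.mpr ⟨k, Finset.mem_univ _, by by_contra h; exact hk (if_neg h)⟩
  · intro s _ hs
    rw [MvPolynomial.notMem_support_iff.mp hs, mul_zero, zero_mul]

theorem single (f : MvPolynomial (Fin 9) ℂ) (v : Fin 9 → ℕ) (k : Fin 6)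
    (hv : ∀ i, v i ≤ e k i) (hk : ∀ l, l ≠ k → ¬ ∀ i, v i ≤ e l i)
    (h : pair (f * monomial (fs v) 1) T = 0) : coeff (fs fun i => e k i - v i) f = 0 := by
  classical
  rw [pair_T, Finset.sum_eq_single k _ (by simp), coeff_mul_monomial',
    if_pos (show fs v ≤ fs (e k) from hv), mul_one,
    mul_eq_zero] at h
  · rw [show (fs fun i => e k i - v i) = fs (e k) - fs v from Finsupp.ext fun _ => rfl]
    refine h.resolve_right (Finset.prod_ne_zero_iff.mpr fun i _ => ?_)
    exact_mod_cast Nat.factorial_ne_zero _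
  · intro l _ hl
    rw [coeff_mul_monomial', if_neg (show ¬ fs v ≤ fs (e l) from hk l hl), zero_mul]

theorem hom (v : Fin 9 → ℕ) (d : ℕ) (h : ∑ i, v i = d) :
    (monomial (fs v) (1 : ℂ)).IsHomogeneous d :=
  isHomogeneous_monomial _ (by rw [Finsupp.degree_eq_sum]; exact h)

theorem result : ∃ (m : ℕ) (F : MvPolynomial (Fin m) ℂ), 1 ≤ m ∧ F.IsHomogeneous 3 ∧
    ann F 1 = ⊥ ∧
    m + finrank ℂ ↥(homogeneousSubmodule (Fin m) ℂ 1 * ann F 2) ≤ finrank ℂ (ann F 3) := by
  classical
  refine ⟨9, T, by norm_num, IsHomogeneous.sum _ _ _ fun k _ => hom _ _ (by revert k; decide),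
    ?_, ?_⟩
  · rw [eq_bot_iff]
    rintro f ⟨h1, h2⟩
    rw [SetLike.mem_coe, homogeneousSubmodule_one_eq_span_X,
      Submodule.mem_span_range_iff_exists_fun] at h1
    obtain ⟨a, rfl⟩ := h1
    refine Finset.sum_eq_zero fun j _ => ?_
    have key : ∀ j : Fin 9, ∃ k : Fin 6, (∀ l, l ≠ k → ¬ ∀ i, e k i - (if j = i then 1 else 0) ≤
        e l i) ∧ ∀ i, e k i - (e k i - if j = i then 1 else 0) = if j = i then 1 else 0 := by
      decide
    obtain ⟨k, h3, h4⟩ := key j
    have h5 := single _ _ k (fun i => Nat.sub_le _ _) h3 (h2 _)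
    have h6 : (fs fun i => e k i - (e k i - if j = i then 1 else 0)) = Finsupp.single j 1 := by
      ext i; rw [fs_apply, h4, Finsupp.single_apply]
    rw [h6, coeff_sum, Finset.sum_eq_single j] at h5
    · simp only [coeff_smul, coeff_X_same, smul_eq_mul, mul_one] at h5
      rw [h5, zero_smul]
    · intro l _ hl
      rw [coeff_smul, coeff_X, if_neg, smul_zero]
      exact fun h => hl (Finsupp.single_left_injective one_ne_zero h)
    · simp
  have hfin : Module.Finite ℂ (homogeneousSubmodule (Fin 9) ℂ 3) :=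
    Module.Finite.iff_fg.mpr (homogeneousSubmodule_fg _ _ 3)
  have hfin3 : Module.Finite ℂ (ann T 3) := Submodule.finiteDimensional_of_le inf_le_left
  obtain ⟨ρ, hρ⟩ : ∃ ρ : MvPolynomial (Fin 9) ℂ →ₗ[ℂ] (Fin 10 → ℂ),
    ∀ f l, ρ f l = coeff (fs (c l)) f :=
    ⟨LinearMap.pi fun l => lcoeff ℂ (fs (c l)), fun _ _ => rfl⟩
  have hU : homogeneousSubmodule (Fin 9) ℂ 1 * ann T 2 ≤ ann T 3 ⊓ LinearMap.ker ρ := by
    rw [homogeneousSubmodule_one_eq_span_X, ← Submodule.span_eq (ann T 2), Submodule.span_mul_span,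
      Submodule.span_le]
    rintro _ ⟨_, ⟨j, rfl⟩, f, ⟨h1, h2⟩, rfl⟩
    refine ⟨⟨(isHomogeneous_X ℂ j).mul h1, fun g => ?_⟩, ?_⟩
    · have := h2 (X j * g)
      rw [← mul_assoc, mul_comm f] at this
      exact this
    · have hq : ∀ k, coeff (fs (q k)) f = 0 := by
        intro k
        have := single f (fun i => if (i : ℕ) = k + 3 then 1 else 0) k (fun i => by simp [e])
          (by revert k; decide) (h2 _)
        simpa [e] using this
      refine LinearMap.mem_ker.mpr (funext fun l => ?_)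
      rw [hρ, Pi.zero_apply, coeff_X_mul']
      split_ifs with h
      · have key : ∀ l j, c l j ≠ 0 → ∃ k, ∀ i, c l i - (if j = i then 1 else 0) = q k i := by
          decide
        obtain ⟨k, hk⟩ := key l j (Finsupp.mem_support_iff.mp h)
        rw [← hq k]
        congr 1
        ext i
        rw [Finsupp.tsub_apply, fs_apply, fs_apply, ← hk, Finsupp.single_apply]
      · rfl
  have hsurj : LinearMap.range (ρ.domRestrict (ann T 3)) = ⊤ := by
    rw [eq_top_iff, ← (Pi.basisFun ℂ (Fin 10)).span_eq, Submodule.span_le]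
    rintro _ ⟨l, rfl⟩
    refine ⟨⟨monomial (fs (c l)) 1, hom _ _ (by revert l; decide), fun g => ?_⟩, ?_⟩
    · rw [pair_T]
      refine Finset.sum_eq_zero fun k _ => ?_
      have key : ∀ l k, ¬ ∀ i, c l i ≤ e k i := by decide
      rw [coeff_monomial_mul', if_neg (show ¬ fs (c l) ≤ fs (e k) from key l k), zero_mul]
    · ext l'
      rw [LinearMap.domRestrict_apply, hρ, coeff_monomial, Pi.basisFun_apply, Pi.single_apply]
      exact if_congr ⟨fun h => ((show Function.Injective c by decide) (fs_inj h)).symm,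
        fun h => by rw [h]⟩ rfl rfl
  have h1 := LinearMap.finrank_range_add_finrank_ker (ρ.domRestrict (ann T 3))
  rw [hsurj, finrank_top, finrank_fintype_fun_eq_card, Fintype.card_fin,
    LinearMap.ker_domRestrict, ← Submodule.finrank_map_subtype_eq, Submodule.map_comap_subtype]
    at h1
  have hfin4 : Module.Finite ℂ ↥(ann T 3 ⊓ LinearMap.ker ρ) :=
    Submodule.finiteDimensional_of_le inf_le_left
  have h2 := Submodule.finrank_mono hU
  omega

end Pool.Agent.Results.MP_1eaf4f_ag.ManyCubics
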